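import Mathlib
import Pool.Agent.Q277.DoubleSum

/-!
# Uniform multipliers for double-sum congruences of `S_n^{(r)}`

With `S_n^{(r)} = ∑_{k=0}^n C(n,k)^2 C(2k,k) (2k+1)^r` we prove that for every positive integer `r`
there are nonzero integers `a`, `b` such that `n^2` divides `a ∑_{k<n} S_k^{(2r-1)}` and
`b ∑_{k<n} k S_k^{(r)}` for all positive integers `n`; the first statement holds for even
exponents as well.
-/

open Finset

namespace Pool.Agent.Results.MP_e2f147_nt.Multipliers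

/-- `S_n^{(r)} = ∑_{k=0}^n C(n,k)^2 C(2k,k) (2k+1)^r`. -/
def S (r n : ℕ) : ℤ :=
  ∑ k ∈ range (n + 1), (n.choose k : ℤ) ^ 2 * ((2 * k).choose k : ℤ) * (2 * (k : ℤ) + 1) ^ r

/-- For every positive integer `r` there are nonzero integers `a`, `b`, independent of `n`, with
`n^2 ∣ a ∑_{k<n} S_k^{(2r-1)}` and `n^2 ∣ b ∑_{k<n} k S_k^{(r)}` for all positive integers `n`
(and a nonzero integer `c` with `n^2 ∣ c ∑_{k<n} S_k^{(r)}`, whatever the parity of `r`). -/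
theorem result (r : ℕ) (hr : 1 ≤ r) :
    ∃ a b c : ℤ, a ≠ 0 ∧ b ≠ 0 ∧ c ≠ 0 ∧ ∀ n : ℕ, 1 ≤ n →
      (n : ℤ) ^ 2 ∣ a * ∑ k ∈ range n, S (2 * r - 1) k ∧
      (n : ℤ) ^ 2 ∣ b * ∑ k ∈ range n, (k : ℤ) * S r k ∧
      (n : ℤ) ^ 2 ∣ c * ∑ k ∈ range n, S r k := by
  obtain ⟨i, rfl⟩ : ∃ i, r = i + 1 := ⟨r - 1, by omega⟩
  have e : 2 * (i + 1) - 1 = 2 * i + 1 := by omega
  rw [e]
  obtain ⟨a, ha, h1⟩ := Q277.DoubleSum.all_powers (2 * i)
  obtain ⟨b, hb, h2⟩ := Q277.DoubleSum.all_powers_k i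
  obtain ⟨c, hc, h3⟩ := Q277.DoubleSum.all_powers i
  exact ⟨a, b, c, ha, hb, hc, fun n _ => ⟨h1 n, h2 n, h3 n⟩⟩

end Pool.Agent.Results.MP_e2f147_nt.Multipliers
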